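import Mathlib

/-!
# Steiner triple systems and their automorphism groups (MP_9c4767_co)
-/

set_option autoImplicit false

namespace Pool.Agent.Lib_helper23.STSQ

universe u

/-- A Steiner triple system on the set of points `V`: a family of 3-element subsets of `V`
(triples) such that any two different points lie together in exactly one triple. -/
structure SteinerTripleSystem (V : Type u) where
  /-- the triples -/
  triples : Set (Finset V)
  card_triple : ∀ b ∈ triples, b.card = 3
  unique_triple : ∀ x y : V, x ≠ y → ∃! b : Finset V, b ∈ triples ∧ x ∈ b ∧ y ∈ b

namespace SteinerTripleSystem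

variable {V : Type u}

/-- The automorphism group of a Steiner triple system `X`: the permutations `σ` of the points
which map the family of the triples onto itself, `{σ(b) : b a triple} = {b : b a triple}`. -/
def Aut (X : SteinerTripleSystem V) : Subgroup (Equiv.Perm V) where
  carrier := {σ | (fun b : Finset V => b.map σ.toEmbedding) '' X.triples = X.triples}
  one_mem' := by
    have h : (fun b : Finset V => b.map (1 : Equiv.Perm V).toEmbedding) = id := by
      funext b
      exact Finset.map_refl
    change (fun b : Finset V => b.map (1 : Equiv.Perm V).toEmbedding) '' X.triples = X.triples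
    rw [h, Set.image_id]
  mul_mem' := by
    intro σ τ hσ hτ
    change (fun b : Finset V => b.map (σ * τ).toEmbedding) '' X.triples = X.triples
    have h : (fun b : Finset V => b.map (σ * τ).toEmbedding) =
        (fun b : Finset V => b.map σ.toEmbedding) ∘ (fun b : Finset V => b.map τ.toEmbedding) := by
      funext b
      simp only [Function.comp_apply, Finset.map_map]
      rfl
    rw [h, Set.image_comp]
    have hτ' : (fun b : Finset V => b.map τ.toEmbedding) '' X.triples = X.triples := hτ
    rw [hτ']
    exact hσ
  inv_mem' := by
    intro σ hσ
    change (fun b : Finset V => b.map (σ⁻¹).toEmbedding) '' X.triples = X.triples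
    have hσ' : (fun b : Finset V => b.map σ.toEmbedding) '' X.triples = X.triples := hσ
    have h : (fun b : Finset V => b.map (σ⁻¹).toEmbedding) ∘
        (fun b : Finset V => b.map σ.toEmbedding) = id := by
      funext b
      ext x
      simp only [Function.comp_apply, Finset.mem_map_equiv, id]
      change (Equiv.symm σ) (σ x) ∈ b ↔ x ∈ b
      rw [Equiv.symm_apply_apply]
    conv_lhs => rw [← hσ']
    rw [← Set.image_comp, h, Set.image_id]

end SteinerTripleSystem

end Pool.Agent.Lib_helper23.STSQ
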