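import Pool.Agent.Lib_helper60.Sts.Final

/-!
The construction of `Lib_helper60/Sts/Final.lean` with its true size: at most `4800 n²` points
(MP_9c4767_co).
-/

set_option autoImplicit false
set_option linter.unusedSectionVars false

namespace Pool.Agent.Lib_helper23.STSQ

open Pool.Agent.Lib_helper60.Sts

/-- main construction -/
theorem main_sq (G : Type) [Group G] [Fintype G] (hn : 2 ≤ Fintype.card G) :
    ∃ (V : Type) (_ : Fintype V) (op : V → V → V) (φ : G →* Equiv.Perm V),
      Fintype.card V ≤ 4800 * (Fintype.card G) ^ 2 ∧ IsSquag op ∧ Function.Injective φ ∧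
      ∀ σ : Equiv.Perm V, σ ∈ φ.range ↔ ∀ x y, σ (op x y) = op (σ x) (σ y) := by
  classical
  obtain ⟨n, hnn⟩ : ∃ n, Fintype.card G = n := ⟨_, rfl⟩
  have hn2 : 2 ≤ n := by omega
  have : Nontrivial G := Fintype.one_lt_card_iff_nontrivial.1 (by omega)
  obtain ⟨gs, hgs⟩ := exists_ne (1 : G)
  have hq : 2 * Fintype.card G + 40 ≤ 40 * n := by omega
  obtain ⟨D, hN⟩ := exists_dat (40 * n) hq ⟨20 * n, by ring⟩ gs hgs
  have hNZ : NeZero (40 * n) := ⟨by omega⟩
  obtain ⟨J, hJ⟩ : ∃ J, Nat.card (Pp D.e) = J := ⟨_, rfl⟩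
  have hJn := Pp_le D.e
  rw [hJ, hnn] at hJn
  have hCC := card_CC D (by omega) hN
  rw [hJ, hnn] at hCC
  have hnsq : 2 * n ≤ n * n := Nat.mul_le_mul_right _ hn2
  have h60 : 60 * (40 * n) * n = 2400 * (n * n) := by ring
  rw [h60] at hCC
  have hp1 : 7 + 2 * J ≤ 800 * (n * n) := by omega
  obtain ⟨p, hp⟩ : ∃ p, p + 7 + 2 * J = 800 * (n * n) := ⟨800 * (n * n) - 7 - 2 * J, by omega⟩
  have hpodd : Odd p := ⟨400 * (n * n) - J - 4, by omega⟩
  have hpz : NeZero p := ⟨by omega⟩
  have hFinCC : Finite D.CC := by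
    apply Nat.finite_of_card_ne_zero
    omega
  let _ : Fintype D.CC := Fintype.ofFinite _
  let _ : Fintype (WW D.e (40 * n)) := Fintype.ofFinite _
  let _ : Fintype (HH G (40 * n)) := Fintype.ofFinite _
  have hc := dat_counts D (by omega) hN
  have hcC : Fintype.card D.CC = 3 * p := by
    rw [← Nat.card_eq_fintype_card]; omega
  have hcH : Fintype.card (HH G (40 * n)) = 2400 * (n * n) := by
    rw [← Nat.card_eq_fintype_card, card_HH, hnn, h60]
  have hcF : Fintype.card (ZMod p × ZMod 3) = 3 * p := by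
    rw [Fintype.card_prod, ZMod.card, ZMod.card]; ring
  let e : D.CC ≃ ZMod p × ZMod 3 := Fintype.equivOfCardEq (hcC.trans hcF.symm)
  have hT : ∀ x y z, D.T x y z ↔ ∃ w, D.glue.a w = x ∧ D.glue.b w = y ∧ D.glue.t w = z :=
    fun x y z => Iff.rfl
  have huniq : ∀ x y z z' : HH G (40 * n), D.T x y z → D.T x y z' → z = z' := by
    rintro x y z z' ⟨w, h1, h2, h3⟩ ⟨w', h1', h2', h3'⟩
    have : w = w' := Glue.w_inj (D := D.glue) hc (h1.trans h1'.symm) (h2.trans h2'.symm)
    rw [← h3, ← h3', this]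
  have hne : ∀ x y z : HH G (40 * n), D.T x y z → x ≠ y := by
    rintro x y z ⟨w, h1, h2, h3⟩
    rw [← h1, ← h2]
    exact Glue.ab_ne (D := D.glue) hc w
  let op := glueOp D.glue (bop p) e
  let φ : G →* Equiv.Perm ((ZMod p × ZMod 3) ⊕ HH G (40 * n)) :=
    { toFun := fun a => Equiv.sumCongr (Equiv.refl _) (Dat.lamE a)
      map_one' := by
        ext v
        rcases v with f | x
        · rfl
        · change Sum.inr (Dat.lam 1 x) = Sum.inr x
          rw [Dat.lam_one]
      map_mul' := fun a b => by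
        ext v
        rcases v with f | x
        · rfl
        · change Sum.inr (Dat.lam (a * b) x) = Sum.inr (Dat.lam a (Dat.lam b x))
          rw [Dat.lam_mul] }
  have hφ : ∀ a v, φ a v = Sum.map id (Dat.lam a) v := by
    intro a v
    rcases v with f | x <;> rfl
  refine ⟨(ZMod p × ZMod 3) ⊕ HH G (40 * n), inferInstance, op, φ, ?_, ?_, ?_, ?_⟩
  · rw [Fintype.card_sum, hcF, hcH, hnn, sq]
    omega
  · exact glue_squag D.glue hc (bop p) e (bop_squag hpodd)
  · intro a b hab
    have : φ a (.inr (0, 0, 0, 1)) = φ b (.inr (0, 0, 0, 1)) := by rw [hab]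
    rw [hφ, hφ] at this
    simp only [Sum.map_inr, Dat.lam] at this
    have h2 := Sum.inr_injective this
    simpa using h2
  · intro σ
    constructor
    · rintro ⟨a, rfl⟩ x y
      rw [hφ, hφ, hφ]
      apply glue_aut D.glue hc
      · intro w
        obtain ⟨w', hw'⟩ := D.lam_W a w
        exact ⟨w', hw' 0, hw' 1, hw' 2⟩
      · intro c x
        exact D.lam_mu a c x
    · intro hσ
      obtain ⟨αF, αH, h1, h2, h3, h4⟩ := aut_split D.glue hc (bop p) e (21 + 6 * J)
        (by rw [hcC, hcH]; omega)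
        (by
          intro S hS hSne
          rw [hcF]
          exact bose_sub hpodd (21 + 6 * J) (by omega) (by omega) S hS hSne)
        σ hσ
      obtain ⟨a, ha⟩ := Dat.rigid_T hq huniq hne αH h3 h4
      have ha' : ∀ x, αH x = Dat.lam a x := by
        rintro ⟨r, c, j, x⟩
        exact ha r c j x
      refine ⟨a, ?_⟩
      ext v
      rw [hφ]
      rcases v with f | x
      · rw [h1]
        simp only [Sum.map_inl, id]
        congr 1
        have h5 : σ (glueOp D.glue (bop p) e (.inl f) (.inr (0, 0, 0, 1))) =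
          glueOp D.glue (bop p) e (σ (.inl f)) (σ (.inr (0, 0, 0, 1))) :=
          hσ (.inl f) (.inr (0, 0, 0, 1))
        rw [glueOp_fh, h2, h1, h2, glueOp_fh, ha', ha'] at h5
        have h6 := Sum.inr_injective h5
        have h7 : Dat.lam a (D.glue.μ (e.symm f) (0, 0, 0, 1)) =
            D.glue.μ (e.symm f) (Dat.lam a (0, 0, 0, 1)) := D.lam_mu a _ _
        rw [h7] at h6
        exact e.symm.injective (Glue.mu_inj hc h6)
      · rw [h2, ha']
        rfl



end Pool.Agent.Lib_helper23.STSQ
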